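import Pool.Agent.Helper84.OB.Stmts

set_option autoImplicit false

universe u

open Set Pool.Agent.Helper84.BT
open scoped Matroid

namespace Pool.Agent.Helper84.OB

theorem mi_card3 {β : Type*} [Finite β] (A B C : Set β) :
    (A ∪ B ∪ C).ncard + (A ∩ B).ncard + (A ∩ C).ncard + (B ∩ C).ncard =
      A.ncard + B.ncard + C.ncard + (A ∩ B ∩ C).ncard := by
  have h1 := Set.ncard_union_add_ncard_inter (A ∪ B) C
  have h2 := Set.ncard_union_add_ncard_inter A B
  have h3 := Set.ncard_union_add_ncard_inter (A ∩ C) (B ∩ C)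
  have e1 : (A ∪ B) ∩ C = A ∩ C ∪ B ∩ C := by
    ext x; simp only [mem_union, mem_inter_iff]; tauto
  have e2 : (A ∩ C) ∩ (B ∩ C) = A ∩ B ∩ C := by
    ext x; simp only [mem_inter_iff]; tauto
  rw [e1] at h1
  rw [e2] at h3
  omega

theorem st_MI : ST_MI.{u} := by
  intro α _ M hM A B Y hA hB hY
  obtain ⟨m, F, hF⟩ := hM
  have h1 := nb_ncard_of_cyclic hF hA
  have h2 := nb_ncard_of_cyclic hF hB
  have h3 := nb_ncard_of_cyclic hF hY
  have h4 := nb_ncard_of_cyclic hF (hA.union hB)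
  have h5 := nb_ncard_of_cyclic hF (hA.union hY)
  have h6 := nb_ncard_of_cyclic hF (hB.union hY)
  have h7 := nb_ncard_of_cyclic hF ((hA.union hB).union hY)
  rw [nb_union] at h4 h5 h6
  rw [nb_union, nb_union] at h7
  have h8 := rk_le_nb hF (X := A ∩ B ∩ Y) (fun x hx => hY.subset_ground hx.2)
  have h9 : nb F (A ∩ B ∩ Y) ⊆ nb F A ∩ nb F B ∩ nb F Y := by
    intro i hi
    exact ⟨⟨nb_mono F (fun x hx => hx.1.1) hi, nb_mono F (fun x hx => hx.1.2) hi⟩,
      nb_mono F (fun x hx => hx.2) hi⟩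
  have h10 := Set.ncard_le_ncard h9 (Set.toFinite _)
  have i1 := mi_card3 (nb F A) (nb F B) (nb F Y)
  have i2 := Set.ncard_union_add_ncard_inter (nb F A) (nb F B)
  have i3 := Set.ncard_union_add_ncard_inter (nb F A) (nb F Y)
  have i4 := Set.ncard_union_add_ncard_inter (nb F B) (nb F Y)
  omega

end Pool.Agent.Helper84.OB
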