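import Pool.Agent.Helper84.OB.Fin
import Pool.Agent.Helper84.OB.MI
import Pool.Agent.Helper12.OB.CI
import Pool.Agent.Helper17.OB.MD
import Pool.Agent.Helper76.OB.JN
import Pool.Agent.Helper24.OB.PR
import Pool.Agent.Helper25.OB.EX
import Pool.Agent.Helper27.OB.DP
import Pool.Agent.Helper36.OB.RM
import Pool.Agent.Helper4.OB.SD
import Pool.Agent.Helper51.OB.SK
import Pool.Agent.Helper73.OB.MN
import Pool.Agent.Helper88.OB.WZ
import Pool.Agent.Helper9.OB.HY
import Pool.Agent.Helper8.OB.NU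
import Pool.Agent.Helper77.OB.MT

/-!
# Assembly of the sheet OB (MP_ab4175_co)
-/

set_option autoImplicit false

universe u

open Set Pool.Agent.Helper84.BT
open scoped Matroid

namespace Pool.Agent.Helper84.OB

theorem conclusion {α : Type u} [Finite α]
    (M : Matroid α) (h : IsTransversal M) (hdual : IsTransversal M✶) (hnp : ¬ IsPrincipal M) :
    ∃ (N : Matroid α) (C D : Set α), N ≤m M ∧ Disjoint C D ∧ C ∪ D = N.E ∧
      3 ≤ C.encard ∧ IsCircuitHyperplane N C ∧ IsCircuitHyperplane N D := by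
  have hNU := Pool.Agent.Helper8.OB.st_NU.{u}
  have hMI := st_MI.{u}
  have hMD := Pool.Agent.Helper17.OB.st_MD.{u} hMI
  have hSK := Pool.Agent.Helper51.OB.st_SK.{u} hNU
  have hJN := Pool.Agent.Helper76.OB.st_JN.{u} hMI hNU hSK
  have hEX := Pool.Agent.Helper25.OB.st_EX.{u} hJN
  have hCI := Pool.Agent.Helper12.OB.st_CI.{u}
  have hMT := Pool.Agent.Helper77.OB.st_MT.{u} hMD hNU
  have hWZ := Pool.Agent.Helper88.OB.st_WZ.{u} hMT
  have hDP := Pool.Agent.Helper27.OB.st_DP.{u}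
  have hHY := Pool.Agent.Helper9.OB.st_HY.{u}
  have hSD := Pool.Agent.Helper4.OB.st_SD.{u} hEX hCI hWZ hDP hHY
  have hRM := Pool.Agent.Helper36.OB.st_RM.{u}
  have hMN := Pool.Agent.Helper73.OB.st_MN.{u} hRM
  have hPR := Pool.Agent.Helper24.OB.PR.{u}
  exact fin_of hPR hSD hMN M h hdual hnp

end Pool.Agent.Helper84.OB
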