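import Pool.Agent.Helper84.OB.Stmts

/-!
# The conclusion from the rows PR, SD and MN
-/

set_option autoImplicit false

universe u

open Set Pool.Agent.Helper84.BT
open scoped Matroid

namespace Pool.Agent.Helper84.OB

theorem fin_of (hPR : ST_PR.{u}) (hSD : ST_SD.{u}) (hMN : ST_MN.{u}) {α : Type u} [Finite α]
    (M : Matroid α) (h : IsTransversal M) (hdual : IsTransversal M✶) (hnp : ¬ IsPrincipal M) :
    ∃ (N : Matroid α) (C D : Set α), N ≤m M ∧ Disjoint C D ∧ C ∪ D = N.E ∧
      3 ≤ C.encard ∧ IsCircuitHyperplane N C ∧ IsCircuitHyperplane N D := by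
  have h1 : ∃ A B : Set α, IsCyclicFlat M A ∧ IsCyclicFlat M B ∧
      rk M (A ∪ B) + rk M (A ∩ B) < rk M A + rk M B := by
    by_contra hcon
    apply hnp
    apply isPrincipal_of_modZ h hdual
    intro X Y
    have h2 := rk_submod M (X : Set α) (Y : Set α)
    have h3 : ¬ (rk M ((X : Set α) ∪ Y) + rk M ((X : Set α) ∩ Y) < rk M (X : Set α) + rk M Y) :=
      fun hlt => hcon ⟨X, Y, X.2, Y.2, hlt⟩
    omega
  obtain ⟨A, B, hA, hB, hAB⟩ := h1
  obtain ⟨X, Y, hP⟩ := hPR α M A B hA hB hAB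
  have hP' : Pr M Y X := by
    refine ⟨hP.hY, hP.hX, ?_, ?_, ?_⟩
    · have := hP.pos
      rw [union_comm, inter_comm]
      omega
    · intro A B hA hB hlt
      have := hP.dmin A B hA hB hlt
      rw [union_comm Y X, inter_comm Y X]
      omega
    · intro A B hA hB he
      rw [union_comm Y X, inter_comm Y X] at he
      have := hP.smin A B hA hB (by omega)
      omega
  obtain ⟨C, H, hC⟩ := hSD α M X Y h hdual hP
  obtain ⟨D, H', hD⟩ := hSD α M Y X h hdual hP'
  exact hMN α M X Y C H D H' hP.hX.1 hP.hY.1 hP.pos hC hD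

end Pool.Agent.Helper84.OB
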