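import Pool.Agent.Helper84.BT.Transport

/-!
# Sheet OB (MP_ab4175_co): a matroid M with M and M* transversal which is not principal has a minor
that is the disjoint union of two circuit-hyperplanes
-/

set_option autoImplicit false

universe u

open Set Pool.Agent.Helper84.BT
open scoped Matroid

namespace Pool.Agent.Helper84.OB

/-- `(X, Y)` is a pair of cyclic flats that is not modular, of least defect, and then of least
size -/
structure Pr {α : Type u} (M : Matroid α) (X Y : Set α) : Prop where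
  hX : IsCyclicFlat M X
  hY : IsCyclicFlat M Y
  pos : rk M (X ∪ Y) + rk M (X ∩ Y) < rk M X + rk M Y
  dmin : ∀ A B : Set α, IsCyclicFlat M A → IsCyclicFlat M B →
    rk M (A ∪ B) + rk M (A ∩ B) < rk M A + rk M B →
    rk M X + rk M Y + rk M (A ∪ B) + rk M (A ∩ B) ≤
      rk M A + rk M B + rk M (X ∪ Y) + rk M (X ∩ Y)
  smin : ∀ A B : Set α, IsCyclicFlat M A → IsCyclicFlat M B →
    rk M X + rk M Y + rk M (A ∪ B) + rk M (A ∩ B) =
      rk M A + rk M B + rk M (X ∪ Y) + rk M (X ∩ Y) →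
    X.ncard + Y.ncard ≤ A.ncard + B.ncard

/-- `F` is a flat containing `K` which is cyclic over `K` -/
def Over {α : Type u} (M : Matroid α) (K F : Set α) : Prop :=
  M.IsFlat F ∧ K ⊆ F ∧ ∀ x ∈ F \ K, x ∈ M.closure (F \ {x})

/-- PR: a non-modular pair of cyclic flats gives a minimal one. Two times
`Set.exists_min_image` (finite set of pairs of sets). -/
def ST_PR : Prop := ∀ (α : Type u) [Finite α] (M : Matroid α) (A B : Set α),
  IsCyclicFlat M A → IsCyclicFlat M B → rk M (A ∪ B) + rk M (A ∩ B) < rk M A + rk M B →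
  ∃ X Y : Set α, Pr M X Y

/-- MI: presentation `F`, `S U = nb F U`; `nb_ncard_of_cyclic`, `nb_union`, inclusion-exclusion for
the three sets `S A, S B, S Y`, and `rk (A ∩ B ∩ Y) ≤ |S (A ∩ B ∩ Y)|` (`rk_le_nb` in
BT/HatMatroid), `S (A ∩ B ∩ Y) ⊆ S A ∩ S B ∩ S Y`. -/
def ST_MI : Prop := ∀ (α : Type u) [Finite α] (M : Matroid α), IsTransversal M →
  ∀ A B Y : Set α, IsCyclic M A → IsCyclic M B → IsCyclic M Y →
  rk M (A ∩ B ∩ Y) + rk M (A ∪ B) + rk M (A ∪ Y) + rk M (B ∪ Y) ≤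
    rk M A + rk M B + rk M Y + rk M (A ∪ B ∪ Y)

/-- MD [MI]: MI for `M✶` and the complements (`isFlat_iff_dual_cyclic`, `rk_dual` in BT), the
cardinalities cancel by inclusion-exclusion. -/
def ST_MD : Prop := ∀ (α : Type u) [Finite α] (M : Matroid α), IsTransversal M✶ →
  ∀ A B Y : Set α, M.IsFlat A → M.IsFlat B → M.IsFlat Y →
  rk M (A ∪ B ∪ Y) + rk M (A ∩ B) + rk M (A ∩ Y) + rk M (B ∩ Y) ≤
    rk M A + rk M B + rk M Y + rk M (A ∩ B ∩ Y)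

/-- NU: `nullity_mono` twice and `nullity_cyc` (BT/Basic, BT/Cyc). -/
def ST_NU : Prop := ∀ (α : Type u) [Finite α] (M : Matroid α) (U F : Set α), F ⊆ M.E →
  cyc M F ⊆ U → U ⊆ F → U.ncard + rk M F = F.ncard + rk M U

/-- SK [NU]: `K = X ∩ Y`, `A = cyc M F`: `F \ K ⊆ A` (circuits), `F = A ∪ K`, `A ∪ Y = F ∪ Y`,
`A ∩ Y = A ∩ K`, `cyc K ⊆ A`; NU for `A ⊆ F` and `A ∩ K ⊆ K` gives
`rk F - rk A = |K \ A| = rk K - rk (A ∩ K)`. So the defect of `(A, Y)` is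
`rk F + rk Y - rk (F ∪ Y) - rk K`, which is at most that of `(X, Y)` (submodularity for `X` and
`F ∪ Y`). If it is positive, it is equal to that of `(X, Y)` by `dmin`, and `smin` is violated
as `|A| ≤ |F| < |X|`. -/
def ST_SK : Prop := ∀ (α : Type u) [Finite α] (M : Matroid α) (X Y F : Set α), Pr M X Y →
  Over M (X ∩ Y) F → F ⊆ X → F ≠ X →
  IsCyclicFlat M (cyc M F) ∧ F = cyc M F ∪ (X ∩ Y) ∧ cyc M (X ∩ Y) ⊆ cyc M F ∧
    rk M (cyc M F) + rk M Y = rk M (cyc M F ∪ Y) + rk M (cyc M F ∩ Y)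

/-- JN [MI, NU, SK]: otherwise MI for `A1 = cyc F1`, `A2 = cyc F2`, `Y`; `A1 ∪ A2 ∪ K = F1 ∪ F2`,
submodularity for `A1 ∪ A2` and `K`; NU for the four subsets `A1 ∩ K`, `A2 ∩ K`, `(A1 ∪ A2) ∩ K`,
`A1 ∩ A2 ∩ K` of `K` (all contain `cyc K`), inclusion-exclusion; `Ai ∩ Y = Ai ∩ K`. Result
`rk X + rk Y ≤ rk (X ∪ Y) + rk K`, against `pos`. -/
def ST_JN : Prop := ∀ (α : Type u) [Finite α] (M : Matroid α) (X Y F₁ F₂ : Set α),
  IsTransversal M → Pr M X Y → Over M (X ∩ Y) F₁ → F₁ ⊆ X → F₁ ≠ X →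
  Over M (X ∩ Y) F₂ → F₂ ⊆ X → F₂ ≠ X → rk M (F₁ ∪ F₂) < rk M X

/-- EX [JN]: a proper `F` (flat over `K`, inside `X`, not `X`) of largest size; it contains all
others, since `closure (F ∪ F')` is again one by JN (`K` itself is one). Take `e ∈ X \ F`. -/
def ST_EX : Prop := ∀ (α : Type u) [Finite α] (M : Matroid α) (X Y : Set α),
  IsTransversal M → Pr M X Y →
  ∃ e ∈ X, e ∉ Y ∧ ∀ F : Set α, Over M (X ∩ Y) F → F ⊆ X → e ∈ F → F = X

/-- CI: take `C ⊆ X \ K` of least size with `e ∈ C` and `e ∈ closure ((C \ {e}) ∪ K)` (`X \ K` is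
one, as `X` is cyclic). For `x ∈ C`: `x ∈ closure ((C \ {x}) ∪ K)` (exchange and minimality), so
`closure (C ∪ K)` is over `K`, contains `e`, and is `X`. `C \ {e}` is independent over `K` by
minimality. -/
def ST_CI : Prop := ∀ (α : Type u) [Finite α] (M : Matroid α) (X K : Set α) (e : α),
  IsCyclicFlat M X → M.IsFlat K → K ⊆ X → e ∈ X → e ∉ K →
  (∀ F : Set α, Over M K F → F ⊆ X → e ∈ F → F = X) →
  ∃ C ⊆ X, Disjoint C K ∧ rk M (C ∪ K) = rk M X ∧ C.ncard + rk M K = rk M X + 1 ∧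
    ∀ c ∈ C, rk M ((C \ {c}) ∪ K) = rk M X

/-- MT [MD, NU]: `V = W₁ ∩ W₂`, `W = cyc M V` (contains `Y`, as `Y` is cyclic). MD for `X, W₁, W₂`
gives `rk X + rk V ≤ rk (X ∪ Y) + rk (X ∩ V)`; NU for `W ⊆ V`, and
`rk (X ∩ V) ≤ rk (X ∩ W) + |V \ W|`. -/
def ST_MT : Prop := ∀ (α : Type u) [Finite α] (M : Matroid α) (X Y W₁ W₂ : Set α),
  IsTransversal M✶ → M.IsFlat X → IsCyclicFlat M Y →
  IsCyclicFlat M W₁ → Y ⊆ W₁ → rk M X + rk M W₁ ≤ rk M (X ∪ Y) + rk M (X ∩ W₁) →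
  IsCyclicFlat M W₂ → Y ⊆ W₂ → rk M X + rk M W₂ ≤ rk M (X ∪ Y) + rk M (X ∩ W₂) →
  ∃ W : Set α, IsCyclicFlat M W ∧ Y ⊆ W ∧ W ⊆ W₁ ∩ W₂ ∧
    rk M X + rk M W ≤ rk M (X ∪ Y) + rk M (X ∩ W)

/-- WZ [MT]: among the cyclic flats `W ⊇ Y` with `rk X + rk W ≤ rk (X ∪ Y) + rk (X ∩ W)` (the
closure of `X ∪ Y` is one) take one of least size; by MT it is contained in all others, it is not
`Y`; take `w` in it, not in `Y`. -/
def ST_WZ : Prop := ∀ (α : Type u) [Finite α] (M : Matroid α) (X Y : Set α),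
  IsTransversal M✶ → IsCyclicFlat M X → IsCyclicFlat M Y →
  rk M (X ∪ Y) + rk M (X ∩ Y) < rk M X + rk M Y →
  ∃ w : α, w ∉ Y ∧ ∀ W : Set α, IsCyclicFlat M W → Y ⊆ W →
    rk M X + rk M W ≤ rk M (X ∪ Y) + rk M (X ∩ W) → w ∈ W

/-- DP: `O' ⊆ O` of least size with some `x ∈ O'`, `x ∈ closure ((O' \ {x}) ∪ Y)`; then this holds
for all `x ∈ O'` (exchange), so `W = closure (O' ∪ Y)` is a cyclic flat. `F = X ∩ W`,
`rk W = rk (F ∪ Y)`, `rk (X ∪ W) = rk (X ∪ Y)`. If the claim fails, `dmin` for `(X, W)` gives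
`rk F + rk Y ≤ rk (F ∪ Y) + rk K`, `K = X ∩ Y`, then the same for `O' ∪ K` in place of `F`
(submodularity for `F`, `O' ∪ Y`), so `rk (O' ∪ K) ≤ rk K + rk (O' ∪ Y) - rk Y < rk K + |O'|`.
If `O' ≠ C`, then `O' ⊆ C \ {c}`, against `rk ((C \ {c}) ∪ K) = rk K + |C \ {c}|`. If `O' = C`,
then `X ⊆ W`, `F = X`, against `pos`. -/
def ST_DP : Prop := ∀ (α : Type u) [Finite α] (M : Matroid α) (X Y C O : Set α) (x : α),
  Pr M X Y → C ⊆ X → Disjoint C (X ∩ Y) → rk M (C ∪ (X ∩ Y)) = rk M X →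
  C.ncard + rk M (X ∩ Y) = rk M X + 1 →
  (∀ c ∈ C, rk M ((C \ {c}) ∪ (X ∩ Y)) = rk M X) →
  O ⊆ C → x ∈ O → x ∈ M.closure ((O \ {x}) ∪ Y) →
  ∃ W : Set α, IsCyclicFlat M W ∧ Y ⊆ W ∧ W ⊆ M.closure (O ∪ Y) ∧
    rk M X + rk M W ≤ rk M (X ∪ Y) + rk M (X ∩ W)

/-- HY: `H ⊆ C` of largest size with `w ∉ closure (H ∪ Y)`. `H` is independent over `Y` (otherwise
`w` is in the closure by the hypothesis). For `c ∈ C \ H`: `w ∈ closure (insert c (H ∪ Y))`, so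
`c ∈ closure (insert w (H ∪ Y))` (exchange): `rk (C ∪ Y) = rk (insert w (H ∪ Y)) = rk (H ∪ Y) + 1`;
and `c ∉ closure (H ∪ Y)`. -/
def ST_HY : Prop := ∀ (α : Type u) [Finite α] (M : Matroid α) (Y C : Set α) (w : α),
  M.IsFlat Y → C ⊆ M.E → w ∉ Y → w ∈ M.closure (C ∪ Y) →
  (∀ O ⊆ C, ∀ x ∈ O, x ∈ M.closure ((O \ {x}) ∪ Y) → w ∈ M.closure (O ∪ Y)) →
  ∃ H ⊆ C, rk M (H ∪ Y) = rk M Y + H.ncard ∧ rk M (H ∪ Y) + 1 = rk M (C ∪ Y) ∧
    ∀ c ∈ C \ H, rk M (insert c (H ∪ Y)) = rk M (C ∪ Y)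

/-- one side of the construction -/
def Side {α : Type u} (M : Matroid α) (X Y C H : Set α) : Prop :=
  H ⊆ C ∧ C ⊆ X ∧ Disjoint C Y ∧ rk M (C ∪ (X ∩ Y)) = rk M X ∧
    C.ncard + rk M (X ∩ Y) = rk M X + 1 ∧ (∀ c ∈ C, rk M ((C \ {c}) ∪ (X ∩ Y)) = rk M X) ∧
    rk M (H ∪ Y) = rk M Y + H.ncard ∧ rk M (H ∪ Y) + 1 = rk M (X ∪ Y) ∧
    ∀ c ∈ C \ H, rk M (insert c (H ∪ Y)) = rk M (X ∪ Y)

/-- SD [EX, CI, WZ, DP, HY]: put together (`rk (C ∪ Y) = rk (X ∪ Y)` since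
`X ⊆ closure (C ∪ (X ∩ Y))`). -/
def ST_SD : Prop := ∀ (α : Type u) [Finite α] (M : Matroid α) (X Y : Set α),
  IsTransversal M → IsTransversal M✶ → Pr M X Y → ∃ C H : Set α, Side M X Y C H

/-- RM: rank in a minor; a basis `I` of `Z`, `(M ／ Z)` independent iff disjoint from `Z` and
`J ∪ I` independent (`IsBasis.contract_indep_iff`). -/
def ST_RM : Prop := ∀ (α : Type u) [Finite α] (M : Matroid α) (Z G U : Set α), Z ⊆ M.E →
  G ⊆ M.E → Disjoint Z G → U ⊆ G → rk ((M ／ Z) ↾ G) U + rk M Z = rk M (U ∪ Z)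

/-- a circuit-hyperplane: a circuit which is a hyperplane (a flat whose rank is one less than the
rank of the matroid) -/
def IsCircuitHyperplane {α : Type u} (N : Matroid α) (C : Set α) : Prop :=
  N.IsCircuit C ∧ N.IsFlat C ∧ N.eRk C + 1 = N.eRank

/-- MN [RM]: `K = X ∩ Y`, `Z = K ∪ H ∪ H'`, `G = (C \ H) ∪ (D \ H')`, `N = (M ／ Z) ↾ G`.
`rk Z = rk K + |H| + |H'|` (`rk (H ∪ Y) = rk Y + |H|` and submodularity; the same with `X, H'`).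
`rk (C ∪ K ∪ H') = rk (X ∪ H') = rk X + |H'|`, also without one element of `C \ H`. So `C \ H` is
a circuit of `N`; `|C \ H| = |D \ H'| = rk X + rk Y - rk (X ∪ Y) - rk K + 2 ≥ 3` is the rank of
`N`; flats: `rk (insert y (X ∪ H')) = rk (X ∪ Y) = rk (X ∪ H') + 1` for `y ∈ D \ H'`. -/
def ST_MN : Prop := ∀ (α : Type u) [Finite α] (M : Matroid α) (X Y C H D H' : Set α),
  M.IsFlat X → M.IsFlat Y → rk M (X ∪ Y) + rk M (X ∩ Y) < rk M X + rk M Y →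
  Side M X Y C H → Side M Y X D H' →
  ∃ (N : Matroid α) (C' D' : Set α), N ≤m M ∧ Disjoint C' D' ∧ C' ∪ D' = N.E ∧
    3 ≤ C'.encard ∧ IsCircuitHyperplane N C' ∧ IsCircuitHyperplane N D'

end Pool.Agent.Helper84.OB
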